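import Pool.Agent.Helper76.P13.StD

/-!
# Project P13 (levels `13^n`), module Cnt: counting the index sets
-/

set_option autoImplicit false

namespace Pool.Agent.Helper66.P13L

open Pool.Agent.Helper76.P13D
open Pool.Agent.Helper76.P13 (dd13)
open Pool.Agent.Helper93.TLE (DDE)

/-- Counting the numbers below `c`. -/
private theorem inner (A c : ℕ) (h : c ≤ A) :
    (∑ i ∈ Finset.range A, if i < c then 1 else 0) = c := by
  rw [← Finset.sum_filter, Finset.sum_const, smul_eq_mul, mul_one]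
  have : (Finset.range A).filter (fun i => i < c) = Finset.range c := by
    ext i
    simp only [Finset.mem_filter, Finset.mem_range]
    omega
  rw [this, Finset.card_range]

/-- Gauss. -/
private theorem gauss (M : ℕ) : (∑ j ∈ Finset.range M, (M - j)) * 2 = M * (M + 1) := by
  induction M with
  | zero => simp
  | succ M ih =>
    rw [Finset.sum_range_succ']
    have h : (∑ k ∈ Finset.range M, (M + 1 - (k + 1))) = ∑ k ∈ Finset.range M, (M - k) :=
      Finset.sum_congr rfl fun k _ => by omega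
    rw [h, add_mul, ih]
    simp only [Nat.sub_zero]
    ring

/-- Terms `g (M - j)` with `g 0 = 0` vanish beyond `M`. -/
private theorem cut (g : ℕ → ℕ) (hg : g 0 = 0) (B M : ℕ) (h : M ≤ B) :
    ∑ j ∈ Finset.range B, g (M - j) = ∑ j ∈ Finset.range M, g (M - j) := by
  symm
  apply Finset.sum_subset
  · intro j hj
    simp only [Finset.mem_range] at hj ⊢
    omega
  · intro j _ hj
    simp only [Finset.mem_range] at hj
    rw [Nat.sub_eq_zero_of_le (by omega), hg]

/-- The sum of the `13 (M - j) - e`. -/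
private theorem sum13 (M e : ℕ) (he : e ≤ 13) :
    (∑ j ∈ Finset.range M, (13 * (M - j) - e)) * 2 + 2 * e * M = 13 * (M * (M + 1)) := by
  have h : (∑ j ∈ Finset.range M, (13 * (M - j) - e)) + ∑ j ∈ Finset.range M, e =
      13 * ∑ j ∈ Finset.range M, (M - j) := by
    rw [Finset.mul_sum, ← Finset.sum_add_distrib]
    apply Finset.sum_congr rfl
    intro j hj
    rw [Finset.mem_range] at hj
    omega
  have h2 : (∑ j ∈ Finset.range M, e) = M * e := by simp
  rw [h2] at h
  have hg := gauss M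
  nlinarith

/-- Splitting off the first coordinate. -/
private theorem split (A : ℕ) (p : ℕ → ℕ → ℕ → Prop) [∀ c i j, Decidable (p c i j)] :
    ((Finset.range 14 ×ˢ Finset.range A ×ˢ Finset.range A).filter
      fun t : ℕ × ℕ × ℕ => p t.1 t.2.1 t.2.2).card =
      (∑ j ∈ Finset.range A, ∑ i ∈ Finset.range A, if p 0 i j then 1 else 0) +
      (∑ j ∈ Finset.range A, ∑ i ∈ Finset.range A, if p 1 i j then 1 else 0) +
      (∑ j ∈ Finset.range A, ∑ i ∈ Finset.range A, if p 2 i j then 1 else 0) +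
      (∑ j ∈ Finset.range A, ∑ i ∈ Finset.range A, if p 3 i j then 1 else 0) +
      (∑ j ∈ Finset.range A, ∑ i ∈ Finset.range A, if p 4 i j then 1 else 0) +
      (∑ j ∈ Finset.range A, ∑ i ∈ Finset.range A, if p 5 i j then 1 else 0) +
      (∑ j ∈ Finset.range A, ∑ i ∈ Finset.range A, if p 6 i j then 1 else 0) +
      (∑ j ∈ Finset.range A, ∑ i ∈ Finset.range A, if p 7 i j then 1 else 0) +
      (∑ j ∈ Finset.range A, ∑ i ∈ Finset.range A, if p 8 i j then 1 else 0) +
      (∑ j ∈ Finset.range A, ∑ i ∈ Finset.range A, if p 9 i j then 1 else 0) +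
      (∑ j ∈ Finset.range A, ∑ i ∈ Finset.range A, if p 10 i j then 1 else 0) +
      (∑ j ∈ Finset.range A, ∑ i ∈ Finset.range A, if p 11 i j then 1 else 0) +
      (∑ j ∈ Finset.range A, ∑ i ∈ Finset.range A, if p 12 i j then 1 else 0) +
      ∑ j ∈ Finset.range A, ∑ i ∈ Finset.range A, if p 13 i j then 1 else 0 := by
  rw [Finset.card_filter, Finset.sum_product]
  simp only [Finset.sum_range_succ (n := 13), Finset.sum_range_succ (n := 12),
    Finset.sum_range_succ (n := 11), Finset.sum_range_succ (n := 10),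
    Finset.sum_range_succ (n := 9), Finset.sum_range_succ (n := 8), Finset.sum_range_succ (n := 7),
    Finset.sum_range_succ (n := 6), Finset.sum_range_succ (n := 5), Finset.sum_range_succ (n := 4),
    Finset.sum_range_succ (n := 3), Finset.sum_range_succ (n := 2), Finset.sum_range_succ (n := 1),
    Finset.sum_range_one]
  simp only [Finset.sum_product_right]

/-- Pairs with `i + j < M`. -/
private theorem pairs (A M : ℕ) (h : M ≤ A) :
    (∑ j ∈ Finset.range A, ∑ i ∈ Finset.range A, if i + j < M then 1 else 0) * 2 = M * (M + 1) := by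
  rw [← gauss M, ← cut (fun x => x) rfl A M h]
  congr 1
  apply Finset.sum_congr rfl
  intro j _
  rw [← inner A (M - j) (by omega)]
  apply Finset.sum_congr rfl
  intro i _
  by_cases h : i + j < M
  · rw [if_pos h, if_pos (by omega)]
  · rw [if_neg h, if_neg (by omega)]

/-- Pairs with `1 + i + j < M`. -/
private theorem pairs1 (A M : ℕ) (h : M ≤ A) (hM : 1 ≤ M) :
    (∑ j ∈ Finset.range A, ∑ i ∈ Finset.range A, if 1 + i + j < M then 1 else 0) * 2 + 2 * M =
      M * (M + 1) := by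
  obtain ⟨N, rfl⟩ : ∃ N, M = N + 1 := ⟨M - 1, by omega⟩
  have h1 := pairs A N (by omega)
  have h2 : (∑ j ∈ Finset.range A, ∑ i ∈ Finset.range A, if 1 + i + j < N + 1 then 1 else 0) =
      ∑ j ∈ Finset.range A, ∑ i ∈ Finset.range A, if i + j < N then 1 else 0 := by
    apply Finset.sum_congr rfl
    intro j _
    apply Finset.sum_congr rfl
    intro i _
    by_cases h : i + j < N
    · rw [if_pos h, if_pos (by omega)]
    · rw [if_neg h, if_neg (by omega)]
  rw [h2, h1]
  ring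

/-- Pairs with `e + i + 13 j < 13 M`. -/
private theorem pairs13 (A M e : ℕ) (he : e ≤ 13) (h : 13 * M ≤ A) :
    (∑ j ∈ Finset.range A, ∑ i ∈ Finset.range A, if e + i + 13 * j < 13 * M then 1 else 0) * 2 +
      2 * e * M = 13 * (M * (M + 1)) := by
  rw [← sum13 M e he, ← cut (fun x => 13 * x - e) (by simp) A M (by omega)]
  congr 2
  apply Finset.sum_congr rfl
  intro j _
  rw [← inner A (13 * (M - j) - e) (by omega)]
  apply Finset.sum_congr rfl
  intro i _
  by_cases h : e + i + 13 * j < 13 * M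
  · rw [if_pos h, if_pos (by omega)]
  · rw [if_neg h, if_neg (by omega)]

private theorem dd_odd (m : ℕ) : dd13 (2 * m + 3) = 84 * 169 ^ m + 6 * 13 ^ m := by
  unfold dd13
  rw [if_neg (by omega), if_neg (by omega), if_neg (by omega), if_pos (by omega)]
  have h : (2 * m + 3) / 2 - 1 = m := by omega
  rw [h]

private theorem dd_even (m : ℕ) : dd13 (2 * m + 4) = 1092 * 169 ^ m - 18 * 13 ^ m := by
  unfold dd13
  rw [if_neg (by omega), if_neg (by omega), if_neg (by omega), if_neg (by omega)]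
  have h : (2 * m + 4) / 2 - 2 = m := by omega
  rw [h]

private theorem DD_succ (n : ℕ) (hn : 2 ≤ n) : DDE 6 dd13 (n + 1) = DDE 6 dd13 n + dd13 (n + 1) := by
  unfold DDE
  rw [Finset.sum_Ico_succ_top (by omega : 3 ≤ n + 1)]
  ring

private theorem sq169 (m : ℕ) : (169 : ℕ) ^ m = 13 ^ m * 13 ^ m := by
  rw [← mul_pow]
  norm_num

private theorem DD_evenOdd (m : ℕ) : DDE 6 dd13 (2 * m + 2) + 13 ^ m = 7 * (13 ^ m * 13 ^ m) ∧
    DDE 6 dd13 (2 * m + 3) = 91 * (13 ^ m * 13 ^ m) + 5 * 13 ^ m := by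
  induction m with
  | zero => decide
  | succ m ih =>
    have hle : 13 ^ m ≤ 13 ^ m * 13 ^ m := Nat.le_mul_of_pos_left _ (by positivity)
    have h1 : DDE 6 dd13 (2 * (m + 1) + 2) + 13 ^ (m + 1) = 7 * (13 ^ (m + 1) * 13 ^ (m + 1)) := by
      rw [show 2 * (m + 1) + 2 = (2 * m + 3) + 1 by ring, DD_succ _ (by omega), ih.2,
        show 2 * m + 3 + 1 = 2 * m + 4 by ring, dd_even, sq169, pow_succ]
      have h2 : 7 * (13 ^ m * 13 * (13 ^ m * 13)) = 1183 * (13 ^ m * 13 ^ m) := by ring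
      rw [h2]
      omega
    refine ⟨h1, ?_⟩
    rw [show 2 * (m + 1) + 3 = (2 * (m + 1) + 2) + 1 by ring, DD_succ _ (by omega),
      show 2 * (m + 1) + 2 + 1 = 2 * (m + 1) + 3 by ring, dd_odd, sq169]
    generalize DDE 6 dd13 (2 * (m + 1) + 2) = D at h1 ⊢
    omega

private theorem aM_le : ∀ c : ℕ, c < 14 → aM c ≤ 12 := by decide

private theorem bM_le : ∀ c : ℕ, c < 14 → bM c ≤ aM c := by decide

/-- CNT. -/
theorem hCnt : TCnt := by
  constructor
  · intro k hk
    obtain ⟨m, rfl⟩ : ∃ m, k = m + 1 := ⟨k - 1, by omega⟩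
    have hq : (13 : ℕ) ^ (m + 1) = 13 * 13 ^ m := by rw [pow_succ]; ring
    have h3 : ((Finset.range 14 ×ˢ Finset.range (13 ^ (m + 1)) ×ˢ Finset.range (13 ^ (m + 1))).filter
        fun t : ℕ × ℕ × ℕ => aM t.1 + t.2.1 + 13 * t.2.2 < 13 ^ (m + 1) ∧
          bM t.1 + t.2.1 + t.2.2 < 13 ^ (m + 1 - 1)) =
        ((Finset.range 14 ×ˢ Finset.range (13 ^ (m + 1)) ×ˢ Finset.range (13 ^ (m + 1))).filter
        fun t : ℕ × ℕ × ℕ => bM t.1 + t.2.1 + t.2.2 < 13 ^ m) := by
      apply Finset.filter_congr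
      intro t ht
      rw [hq, show m + 1 - 1 = m by omega]
      have h1 := aM_le t.1 (Finset.mem_range.1 (Finset.mem_product.1 ht).1)
      constructor
      · intro h
        exact h.2
      · intro h
        constructor <;> omega
    rw [h3, split (13 ^ (m + 1)) (fun c i j => bM c + i + j < 13 ^ m)]
    have h4 := pairs (13 ^ (m + 1)) (13 ^ m) (by omega)
    have h5 := pairs1 (13 ^ (m + 1)) (13 ^ m) (by omega) (Nat.one_le_pow _ _ (by norm_num))
    have h7 : DDE 6 dd13 (2 * (m + 1)) + 13 ^ m = 7 * (13 ^ m * 13 ^ m) := (DD_evenOdd m).1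
    have b0 : bM 0 = 0 := rfl
    have b1 : bM 1 = 0 := rfl
    have b2 : bM 2 = 0 := rfl
    have b3 : bM 3 = 0 := rfl
    have b4 : bM 4 = 0 := rfl
    have b5 : bM 5 = 0 := rfl
    have b6 : bM 6 = 1 := rfl
    have b7 : bM 7 = 1 := rfl
    have b8 : bM 8 = 1 := rfl
    have b9 : bM 9 = 1 := rfl
    have b10 : bM 10 = 1 := rfl
    have b11 : bM 11 = 1 := rfl
    have b12 : bM 12 = 1 := rfl
    have b13 : bM 13 = 1 := rfl
    simp only [b0, b1, b2, b3, b4, b5, b6, b7, b8, b9, b10, b11, b12, b13, zero_add]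
    generalize (∑ j ∈ Finset.range (13 ^ (m + 1)), ∑ i ∈ Finset.range (13 ^ (m + 1)),
      if i + j < 13 ^ m then 1 else 0) = x at h4 ⊢
    generalize (∑ j ∈ Finset.range (13 ^ (m + 1)), ∑ i ∈ Finset.range (13 ^ (m + 1)),
      if 1 + i + j < 13 ^ m then 1 else 0) = y at h5 ⊢
    generalize DDE 6 dd13 (2 * (m + 1)) = D at h7 ⊢
    generalize (13 : ℕ) ^ m = M at h4 h5 h7 ⊢
    rw [mul_add] at h4 h5
    omega
  · intro k hk
    obtain ⟨m, rfl⟩ : ∃ m, k = m + 1 := ⟨k - 1, by omega⟩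
    have hq : (13 : ℕ) ^ (m + 1) = 13 * 13 ^ m := by rw [pow_succ]; ring
    have h3 : ((Finset.range 14 ×ˢ Finset.range (13 ^ (m + 1)) ×ˢ Finset.range (13 ^ (m + 1))).filter
        fun t : ℕ × ℕ × ℕ => aM t.1 + t.2.1 + 13 * t.2.2 < 13 ^ (m + 1) ∧
          bM t.1 + t.2.1 + t.2.2 < 13 ^ (m + 1)) =
        ((Finset.range 14 ×ˢ Finset.range (13 ^ (m + 1)) ×ˢ Finset.range (13 ^ (m + 1))).filter
        fun t : ℕ × ℕ × ℕ => aM t.1 + t.2.1 + 13 * t.2.2 < 13 * 13 ^ m) := by
      apply Finset.filter_congr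
      intro t ht
      rw [hq]
      have h1 := bM_le t.1 (Finset.mem_range.1 (Finset.mem_product.1 ht).1)
      constructor
      · intro h
        exact h.1
      · intro h
        constructor <;> omega
    rw [h3, split (13 ^ (m + 1)) (fun c i j => aM c + i + 13 * j < 13 * 13 ^ m)]
    have h7 : DDE 6 dd13 (2 * (m + 1) + 1) = 91 * (13 ^ m * 13 ^ m) + 5 * 13 ^ m := (DD_evenOdd m).2
    have p := fun (e : ℕ) (he : e ≤ 13) => pairs13 (13 ^ (m + 1)) (13 ^ m) e he (by omega)
    have p0 := p 0 (by omega)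
    have p1 := p 1 (by omega)
    have p2 := p 2 (by omega)
    have p3 := p 3 (by omega)
    have p4 := p 4 (by omega)
    have p5 := p 5 (by omega)
    have p7 := p 7 (by omega)
    have p9 := p 9 (by omega)
    have p11 := p 11 (by omega)
    have p12 := p 12 (by omega)
    have b0 : aM 0 = 0 := rfl
    have b1 : aM 1 = 1 := rfl
    have b2 : aM 2 = 2 := rfl
    have b3 : aM 3 = 4 := rfl
    have b4 : aM 4 = 5 := rfl
    have b5 : aM 5 = 7 := rfl
    have b6 : aM 6 = 3 := rfl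
    have b7 : aM 7 = 5 := rfl
    have b8 : aM 8 = 7 := rfl
    have b9 : aM 9 = 9 := rfl
    have b10 : aM 10 = 9 := rfl
    have b11 : aM 11 = 11 := rfl
    have b12 : aM 12 = 11 := rfl
    have b13 : aM 13 = 12 := rfl
    simp only [b0, b1, b2, b3, b4, b5, b6, b7, b8, b9, b10, b11, b12, b13]
    clear p h3
    generalize (∑ j ∈ Finset.range (13 ^ (m + 1)), ∑ i ∈ Finset.range (13 ^ (m + 1)),
      if 0 + i + 13 * j < 13 * 13 ^ m then 1 else 0) = x0 at p0 ⊢
    generalize (∑ j ∈ Finset.range (13 ^ (m + 1)), ∑ i ∈ Finset.range (13 ^ (m + 1)),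
      if 1 + i + 13 * j < 13 * 13 ^ m then 1 else 0) = x1 at p1 ⊢
    generalize (∑ j ∈ Finset.range (13 ^ (m + 1)), ∑ i ∈ Finset.range (13 ^ (m + 1)),
      if 2 + i + 13 * j < 13 * 13 ^ m then 1 else 0) = x2 at p2 ⊢
    generalize (∑ j ∈ Finset.range (13 ^ (m + 1)), ∑ i ∈ Finset.range (13 ^ (m + 1)),
      if 3 + i + 13 * j < 13 * 13 ^ m then 1 else 0) = x3 at p3 ⊢
    generalize (∑ j ∈ Finset.range (13 ^ (m + 1)), ∑ i ∈ Finset.range (13 ^ (m + 1)),
      if 4 + i + 13 * j < 13 * 13 ^ m then 1 else 0) = x4 at p4 ⊢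
    generalize (∑ j ∈ Finset.range (13 ^ (m + 1)), ∑ i ∈ Finset.range (13 ^ (m + 1)),
      if 5 + i + 13 * j < 13 * 13 ^ m then 1 else 0) = x5 at p5 ⊢
    generalize (∑ j ∈ Finset.range (13 ^ (m + 1)), ∑ i ∈ Finset.range (13 ^ (m + 1)),
      if 7 + i + 13 * j < 13 * 13 ^ m then 1 else 0) = x7 at p7 ⊢
    generalize (∑ j ∈ Finset.range (13 ^ (m + 1)), ∑ i ∈ Finset.range (13 ^ (m + 1)),
      if 9 + i + 13 * j < 13 * 13 ^ m then 1 else 0) = x9 at p9 ⊢
    generalize (∑ j ∈ Finset.range (13 ^ (m + 1)), ∑ i ∈ Finset.range (13 ^ (m + 1)),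
      if 11 + i + 13 * j < 13 * 13 ^ m then 1 else 0) = x11 at p11 ⊢
    generalize (∑ j ∈ Finset.range (13 ^ (m + 1)), ∑ i ∈ Finset.range (13 ^ (m + 1)),
      if 12 + i + 13 * j < 13 * 13 ^ m then 1 else 0) = x12 at p12 ⊢
    generalize DDE 6 dd13 (2 * (m + 1) + 1) = D at h7 ⊢
    clear hq
    generalize (13 : ℕ) ^ m = M at p0 p1 p2 p3 p4 p5 p7 p9 p11 p12 h7 ⊢
    rw [mul_add M M 1] at p0 p1 p2 p3 p4 p5 p7 p9 p11 p12
    generalize M * M = Q at p0 p1 p2 p3 p4 p5 p7 p9 p11 p12 h7 ⊢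
    omega

end Pool.Agent.Helper66.P13L
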